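import Pool.Agent.H94.BS.Main

/-!
# Injectivity of the forgetful pull-backs from prestable to stable curves

`T` is the theory of Chow rings with rational coefficients of smooth algebraic stacks and `P`
is the system of the moduli stacks of prestable and of stable curves; both are given by the list
of their basic properties which the proof uses (`ChowTheory`, `PrestableCurves`), together with
the stratification of the stack of prestable curves by the configuration of the unstable
components (`Stratification`). The theorem: for all `(g, n)` different from `(1, 0)`, all `d` and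
all `m` at least `(d + 1) * (d * (d + 3) / 2 + 2) + 1`, the pull-back from `CH^d (M g n)` to
`CH^d (Mb g (n + m))` is injective. The threshold does not depend on `(g, n)`.
-/

open CategoryTheory MonoidalCategory CartesianMonoidalCategory

universe u v w

namespace Pool.Agent.Results.MP_1ee59b_ag.ForgetfulInjectivity

open Pool.Agent.H94.BS

theorem result {C : Type u} [Category.{v} C] [CartesianMonoidalCategory C]
    (T : ChowTheory.{u, v, w} C) (P : PrestableCurves T)
    (strata : ∀ g n : ℕ, (g, n) ≠ (1, 0) → ∀ d : ℕ,
      Nonempty (Stratification P.cur P.two g n d))
    (g n : ℕ) (hgn : (g, n) ≠ (1, 0)) (d m : ℕ)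
    (hm : (d + 1) * (d * (d + 3) / 2 + 2) + 1 ≤ m)
    (x : T.CH (P.cur.M g n)) (hx : T.InDeg (P.cur.M g n) d x)
    (h : T.res (P.cur.F g (Nat.le_add_right n m)) x = 0) : x = 0 := by
  obtain ⟨st⟩ := strata g n hgn d
  refine main P g n d m st ?_ x hx h
  have : mu d + 1 = d * (d + 3) / 2 + 2 := by
    unfold mu
    omega
  rw [this]
  exact hm

end Pool.Agent.Results.MP_1ee59b_ag.ForgetfulInjectivity
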